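import Pool.Agent.Helper16.HR.Stmts

set_option autoImplicit false

/-! The rank function of a family of bounded height. -/

namespace Pool.Helper16.HR

open Finset

open Classical in
/-- the chains of nonempty sets of `L` inside `T` -/
noncomputable def rkh_ch {I : Type} [DecidableEq I] (L : Finset (Finset I)) (T : Finset I) :
    Finset (Finset (Finset I)) :=
  (((L.erase ∅).filter (fun U => U ⊆ T)).powerset).filter
    (fun C => ∀ S ∈ C, ∀ T ∈ C, S ⊆ T ∨ T ⊆ S)

/-- the largest number of elements of a chain of nonempty sets of `L` inside `T` -/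
noncomputable def rkh_rk {I : Type} [DecidableEq I] (L : Finset (Finset I)) (T : Finset I) : ℕ :=
  (rkh_ch L T).sup Finset.card

theorem rkh_mem {I : Type} [DecidableEq I] {L : Finset (Finset I)} {T : Finset I}
    {C : Finset (Finset I)} : C ∈ rkh_ch L T ↔ (∀ U ∈ C, U ≠ ∅ ∧ U ∈ L ∧ U ⊆ T) ∧
      ∀ S ∈ C, ∀ T ∈ C, S ⊆ T ∨ T ⊆ S := by
  unfold rkh_ch
  rw [Finset.mem_filter, Finset.mem_powerset]
  apply and_congr_left
  intro _
  constructor
  · intro h U hU
    have := h hU
    rw [Finset.mem_filter, Finset.mem_erase] at this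
    exact ⟨this.1.1, this.1.2, this.2⟩
  · intro h U hU
    rw [Finset.mem_filter, Finset.mem_erase]
    exact ⟨⟨(h U hU).1, (h U hU).2.1⟩, (h U hU).2.2⟩

theorem rkh_empty {I : Type} [DecidableEq I] (L : Finset (Finset I)) (T : Finset I) :
    ∅ ∈ rkh_ch L T := by
  rw [rkh_mem]
  exact ⟨fun U hU => (Finset.notMem_empty U hU).elim, fun U hU => (Finset.notMem_empty U hU).elim⟩

theorem st_RKH : ST_RKH := by
  classical
  intro I _ _ E hE ℓ hHt
  obtain ⟨K, hK⟩ : ∃ K : Finset I, ∀ i, i ∈ K ↔ ∀ e ∈ E, i ∈ e :=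
    ⟨univ.filter (fun i => ∀ e ∈ E, i ∈ e), fun i => by simp⟩
  obtain ⟨L, hL⟩ : ∃ L : Finset (Finset I), ∀ T, T ∈ L ↔ ∃ S ⊆ E, S.Nonempty ∧
      ∀ i, i ∈ T ↔ (i ∉ K ∧ ∀ e ∈ S, i ∈ e) :=
    ⟨univ.filter (fun T => ∃ S ⊆ E, S.Nonempty ∧ ∀ i, i ∈ T ↔ (i ∉ K ∧ ∀ e ∈ S, i ∈ e)),
      fun T => by simp⟩
  have hdisj : ∀ T ∈ L, ∀ i ∈ T, i ∉ K := by
    intro T hT i hi
    obtain ⟨S, -, -, h⟩ := (hL T).1 hT
    exact ((h i).1 hi).1
  refine ⟨K, L, rkh_rk L, ?_, ⟨?_, ?_, ?_, ?_⟩, ?_, ?_, ?_, ?_⟩
  · intro e he i hi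
    exact (hK i).1 hi e he
  · rw [hL]
    refine ⟨E, Finset.Subset.refl E, hE, fun i => ?_⟩
    constructor
    · intro h
      exact (Finset.notMem_empty i h).elim
    · rintro ⟨h1, h2⟩
      exact (h1 ((hK i).2 h2)).elim
  · intro S hS T hT
    obtain ⟨S1, a1, a2, a3⟩ := (hL S).1 hS
    obtain ⟨S2, b1, b2, b3⟩ := (hL T).1 hT
    rw [hL]
    refine ⟨S1 ∪ S2, Finset.union_subset a1 b1, a2.mono Finset.subset_union_left, fun i => ?_⟩
    rw [Finset.mem_inter, a3, b3]
    constructor
    · rintro ⟨⟨h1, h2⟩, -, h3⟩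
      refine ⟨h1, fun e he => ?_⟩
      rcases Finset.mem_union.1 he with h | h
      · exact h2 e h
      · exact h3 e h
    · rintro ⟨h1, h2⟩
      exact ⟨⟨h1, fun e he => h2 e (Finset.mem_union_left _ he)⟩, h1,
        fun e he => h2 e (Finset.mem_union_right _ he)⟩
  · intro S hS T hT hST
    obtain ⟨C, hC, hC2⟩ := Finset.exists_mem_eq_sup (rkh_ch L S) ⟨∅, rkh_empty L S⟩ Finset.card
    obtain ⟨c1, c2⟩ := rkh_mem.1 hC
    have hT0 : T ≠ ∅ := by
      rintro rfl
      exact Finset.not_ssubset_empty S hST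
    have hTC : T ∉ C := fun h => hST.2 (c1 T h).2.2
    have hmem : insert T C ∈ rkh_ch L T := by
      rw [rkh_mem]
      refine ⟨?_, ?_⟩
      · intro U hU
        rcases Finset.mem_insert.1 hU with rfl | hU
        · exact ⟨hT0, hT, Finset.Subset.refl _⟩
        · exact ⟨(c1 U hU).1, (c1 U hU).2.1, (c1 U hU).2.2.trans hST.1⟩
      · intro U hU W hW
        rcases Finset.mem_insert.1 hU with hU' | hU' <;>
          rcases Finset.mem_insert.1 hW with hW' | hW'
        · rw [hU', hW']
          exact Or.inl (Finset.Subset.refl _)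
        · rw [hU']
          exact Or.inr ((c1 W hW').2.2.trans hST.1)
        · rw [hW']
          exact Or.inl ((c1 U hU').2.2.trans hST.1)
        · exact c2 U hU' W hW'
    have h1 : (insert T C).card ≤ rkh_rk L T := Finset.le_sup (f := Finset.card) hmem
    rw [Finset.card_insert_of_notMem hTC] at h1
    change (rkh_ch L S).sup Finset.card < rkh_rk L T
    rw [hC2]
    omega
  · intro T hT h
    by_contra hT0
    have hmem : {T} ∈ rkh_ch L T := by
      rw [rkh_mem]
      refine ⟨?_, ?_⟩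
      · intro U hU
        rw [Finset.mem_singleton] at hU
        subst hU
        exact ⟨hT0, hT, Finset.Subset.refl _⟩
      · intro U hU W hW
        rw [Finset.mem_singleton] at hU hW
        subst hU
        subst hW
        exact Or.inl (Finset.Subset.refl _)
    have h1 : ({T} : Finset (Finset I)).card ≤ rkh_rk L T := Finset.le_sup (f := Finset.card) hmem
    rw [Finset.card_singleton] at h1
    omega
  · intro T hT
    apply Finset.sup_le
    intro C hC
    obtain ⟨c1, c2⟩ := rkh_mem.1 hC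
    have hinj : Set.InjOn (fun U : Finset I => U ∪ K) (C : Set (Finset I)) := by
      intro U hU W hW h
      have h' : U ∪ K = W ∪ K := h
      ext i
      have h1 : i ∈ U ∪ K ↔ i ∈ W ∪ K := by rw [h']
      rw [Finset.mem_union, Finset.mem_union] at h1
      constructor
      · intro hi
        rcases h1.1 (Or.inl hi) with h2 | h2
        · exact h2
        · exact (hdisj U (c1 U hU).2.1 i hi h2).elim
      · intro hi
        rcases h1.2 (Or.inl hi) with h2 | h2
        · exact h2
        · exact (hdisj W (c1 W hW).2.1 i hi h2).elim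
    rw [← Finset.card_image_of_injOn hinj]
    apply hHt
    · intro W hW
      obtain ⟨U, hU, rfl⟩ := Finset.mem_image.1 hW
      obtain ⟨u1, u2, -⟩ := c1 U hU
      obtain ⟨S, s1, s2, s3⟩ := (hL U).1 u2
      obtain ⟨i, hi⟩ := Finset.nonempty_iff_ne_empty.2 u1
      refine ⟨⟨i, Finset.mem_union_left _ hi⟩, ⟨S, s1, s2, fun j => ?_⟩, ?_⟩
      · rw [Finset.mem_union, s3]
        constructor
        · rintro (h | h)
          · exact h.2
          · intro e he
            exact (hK j).1 h e (s1 he)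
        · intro h
          by_cases hj : j ∈ K
          · exact Or.inr hj
          · exact Or.inl ⟨hj, h⟩
      · have hiK := hdisj U u2 i hi
        rw [hK] at hiK
        push Not at hiK
        obtain ⟨e, he, hie⟩ := hiK
        exact ⟨e, he, fun h => hie (h (Finset.mem_union_left _ hi))⟩
    · intro W hW W' hW'
      obtain ⟨U, hU, rfl⟩ := Finset.mem_image.1 hW
      obtain ⟨U', hU', rfl⟩ := Finset.mem_image.1 hW'
      rcases c2 U hU U' hU' with h | h
      · exact Or.inl (Finset.union_subset_union_left h)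
      · exact Or.inr (Finset.union_subset_union_left h)
  · intro T hT
    obtain ⟨e, he, rfl⟩ := Finset.mem_image.1 hT
    rw [hL]
    refine ⟨{e}, Finset.singleton_subset_iff.2 he, Finset.singleton_nonempty e, fun i => ?_⟩
    rw [Finset.mem_sdiff]
    constructor
    · rintro ⟨h1, h2⟩
      refine ⟨h2, fun e' he' => ?_⟩
      rw [Finset.mem_singleton] at he'
      rw [he']
      exact h1
    · rintro ⟨h1, h2⟩
      exact ⟨h2 e (Finset.mem_singleton_self e), h1⟩
  · intro T hT
    obtain ⟨S, s1, ⟨e, he⟩, s3⟩ := (hL T).1 hT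
    refine ⟨e \ K, Finset.mem_image.2 ⟨e, s1 he, rfl⟩, fun i hi => ?_⟩
    rw [Finset.mem_sdiff]
    obtain ⟨i1, i2⟩ := (s3 i).1 hi
    exact ⟨i2 e he, i1⟩
  · calc L.card ≤ (univ : Finset (Finset I)).card := Finset.card_le_card (Finset.subset_univ _)
      _ = 2 ^ Fintype.card I := by rw [Finset.card_univ, Fintype.card_finset]

end Pool.Helper16.HR
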